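import Mathlib
/-!
A word of weight 196 in the dual of the 4-error-correcting BCH code of length 511 (helper13):
f(x) = x + a^90 x^3 + a^325 x^5 + x^7 over GF(512), a^9 = a^4 + 1.
-/
set_option autoImplicit false

namespace Pool.Agent.W13.CU

/-- powers of x modulo x^9 + x^4 + 1 as masks -/
def PT : List ℕ := [
  1, 2, 4, 8, 16, 32, 64, 128, 256, 17, 34, 68, 136, 272, 49, 98, 196, 392, 257, 19, 38, 76,
  152, 304, 113, 226, 452, 409, 291, 87, 174, 348, 169, 338, 181, 362, 197, 394, 261, 27, 54,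
  108, 216, 432, 369, 243, 486, 477, 427, 327, 159, 318, 109, 218, 436, 377, 227, 454, 413,
  299, 71, 142, 284, 41, 82, 164, 328, 129, 258, 21, 42, 84, 168, 336, 177, 354, 213, 426,
  325, 155, 310, 125, 250, 500, 505, 483, 471, 447, 367, 207, 414, 301, 75, 150, 300, 73, 146,
  292, 89, 178, 356, 217, 434, 373, 251, 502, 509, 491, 455, 415, 303, 79, 158, 316, 105, 210,
  420, 345, 163, 326, 157, 314, 101, 202, 404, 313, 99, 198, 396, 265, 3, 6, 12, 24, 48, 96,
  192, 384, 273, 51, 102, 204, 408, 289, 83, 166, 332, 137, 274, 53, 106, 212, 424, 321, 147,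
  294, 93, 186, 372, 249, 498, 501, 507, 487, 479, 431, 335, 143, 286, 45, 90, 180, 360, 193,
  386, 277, 59, 118, 236, 472, 417, 339, 183, 366, 205, 410, 293, 91, 182, 364, 201, 402, 309,
  123, 246, 492, 457, 387, 279, 63, 126, 252, 504, 481, 467, 439, 383, 239, 478, 429, 331,
  135, 270, 13, 26, 52, 104, 208, 416, 337, 179, 358, 221, 442, 357, 219, 438, 381, 235, 470,
  445, 363, 199, 398, 269, 11, 22, 44, 88, 176, 352, 209, 418, 341, 187, 374, 253, 506, 485,
  475, 423, 351, 175, 350, 173, 346, 165, 330, 133, 266, 5, 10, 20, 40, 80, 160, 320, 145,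
  290, 85, 170, 340, 185, 370, 245, 490, 453, 411, 295, 95, 190, 380, 233, 466, 437, 379, 231,
  462, 397, 267, 7, 14, 28, 56, 112, 224, 448, 401, 307, 119, 238, 476, 425, 323, 151, 302,
  77, 154, 308, 121, 242, 484, 473, 419, 343, 191, 382, 237, 474, 421, 347, 167, 334, 141,
  282, 37, 74, 148, 296, 65, 130, 260, 25, 50, 100, 200, 400, 305, 115, 230, 460, 393, 259,
  23, 46, 92, 184, 368, 241, 482, 469, 443, 359, 223, 446, 365, 203, 406, 317, 107, 214, 428,
  329, 131, 262, 29, 58, 116, 232, 464, 433, 371, 247, 494, 461, 395, 263, 31, 62, 124, 248,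
  496, 497, 499, 503, 511, 495, 463, 399, 271, 15, 30, 60, 120, 240, 480, 465, 435, 375, 255,
  510, 493, 459, 391, 287, 47, 94, 188, 376, 225, 450, 405, 315, 103, 206, 412, 297, 67, 134,
  268, 9, 18, 36, 72, 144, 288, 81, 162, 324, 153, 306, 117, 234, 468, 441, 355, 215, 430,
  333, 139, 278, 61, 122, 244, 488, 449, 403, 311, 127, 254, 508, 489, 451, 407, 319, 111,
  222, 444, 361, 195, 390, 285, 43, 86, 172, 344, 161, 322, 149, 298, 69, 138, 276, 57, 114,
  228, 456, 385, 275, 55, 110, 220, 440, 353, 211, 422, 349, 171, 342, 189, 378, 229, 458,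
  389, 283, 39, 78, 156, 312, 97, 194, 388, 281, 35, 70, 140, 280, 33, 66, 132, 264]

/-- the trace sequence -/
def T : ℕ := 13992193413405257156128966693974023892466315556652215890842446329444281716486722768730231234175080484204354046336331252701046483497526983992879892694561

/-- power table -/
def pt (k : ℕ) : ℕ := PT.getD (k % 511) 0

/-- multiplication by x -/
def mulx (m : ℕ) : ℕ := if m.testBit 8 then (2 * m) ^^^ 529 else 2 * m

section ring
variable {A : Type*} [CommRing A]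

/-- evaluation of a mask -/
def ev (a : A) (m : ℕ) : A := ∑ i ∈ Finset.range 9, (if m.testBit i then a ^ i else 0)

theorem ev_xor [CharP A 2] (a : A) (m n : ℕ) : ev a (m ^^^ n) = ev a m + ev a n := by
  unfold ev
  rw [← Finset.sum_add_distrib]
  refine Finset.sum_congr rfl fun i _ => ?_
  rw [Nat.testBit_xor]
  cases m.testBit i <;> cases n.testBit i <;> simp [CharTwo.add_self_eq_zero]

theorem ev_zero (a : A) : ev a 0 = 0 := by simp [ev]

theorem ev_one (a : A) : ev a 1 = 1 := by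
  simp [ev, Finset.sum_range_succ, Nat.testBit, Nat.shiftRight_eq_div_pow]

theorem ev_two (a : A) : ev a 2 = a := by
  simp [ev, Finset.sum_range_succ, Nat.testBit, Nat.shiftRight_eq_div_pow]

theorem ev_529 (a : A) : ev a 529 = 1 + a ^ 4 := by
  simp [ev, Finset.sum_range_succ, Nat.testBit, Nat.shiftRight_eq_div_pow]

theorem ev_double (a : A) (m : ℕ) :
    ev a (2 * m) = a * ∑ i ∈ Finset.range 8, (if m.testBit i then a ^ i else 0) := by
  unfold ev
  rw [Finset.sum_range_succ', Finset.mul_sum]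
  have h0 : (2 * m).testBit 0 = false := by simp
  rw [h0]
  simp only [Bool.false_eq_true, if_false, add_zero]
  refine Finset.sum_congr rfl fun i _ => ?_
  have h1 : (2 * m).testBit (i + 1) = m.testBit i := by
    rw [Nat.testBit_add_one]; simp
  rw [h1]
  split_ifs
  · rw [pow_succ]; ring
  · simp

theorem ev_mulx [CharP A 2] {a : A} (ha : a ^ 9 = a ^ 4 + 1) (m : ℕ) :
    ev a (mulx m) = a * ev a m := by
  have h2 : ev a m = ∑ i ∈ Finset.range 8, (if m.testBit i then a ^ i else 0) +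
      (if m.testBit 8 then a ^ 8 else 0) := by
    unfold ev; rw [Finset.sum_range_succ]
  rw [h2, mul_add, ← ev_double]
  unfold mulx
  split_ifs with h
  · rw [ev_xor, ev_529]
    have : a * a ^ 8 = 1 + a ^ 4 := by rw [← pow_succ', ha]; ring
    rw [this]
  · simp

theorem pt_step : ∀ k < 511, pt (k + 1) = mulx (pt k) := by decide +kernel

theorem pow_pt_lt [CharP A 2] {a : A} (ha : a ^ 9 = a ^ 4 + 1) :
    ∀ k < 512, a ^ k = ev a (pt k) := by
  intro k
  induction k with
  | zero =>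
    intro _
    have : pt 0 = 1 := by decide +kernel
    rw [this, ev_one, pow_zero]
  | succ k ih =>
    intro hk
    rw [pt_step k (by omega), ev_mulx ha, ← ih (by omega), pow_succ']

theorem pow_511 [CharP A 2] {a : A} (ha : a ^ 9 = a ^ 4 + 1) : a ^ 511 = 1 := by
  rw [pow_pt_lt ha 511 (by norm_num)]
  have : pt 511 = 1 := by decide +kernel
  rw [this, ev_one]

theorem pow_pt [CharP A 2] {a : A} (ha : a ^ 9 = a ^ 4 + 1) (k : ℕ) : a ^ k = ev a (pt k) := by
  have h1 : a ^ k = a ^ (k % 511) := by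
    conv_lhs => rw [← Nat.div_add_mod k 511, pow_add, pow_mul, pow_511 ha, one_pow, one_mul]
  rw [h1, pow_pt_lt ha (k % 511) (by have := Nat.mod_lt k (show 0 < 511 by norm_num); omega)]
  unfold pt
  rw [Nat.mod_mod]

end ring

open Polynomial

theorem isSplit (p n : ℕ) [Fact p.Prime] :
    IsSplittingField (ZMod p) (GaloisField p n) (X ^ p ^ n - X) :=
  instIsSplittingFieldZModGaloisFieldHSubPolynomialHPowNatX p n

/-- the field -/
abbrev K := GaloisField 2 9

/-- the polynomial -/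
noncomputable def P : (ZMod 2)[X] := X ^ 9 + X ^ 4 + 1

theorem P_deg : P.natDegree = 9 := by
  unfold P; compute_degree!

theorem P_dvd : P ∣ (X ^ (2 ^ 9) - X : (ZMod 2)[X]) := by
  rw [← AdjoinRoot.mk_eq_zero]
  have : Nontrivial (AdjoinRoot P) := AdjoinRoot.nontrivial P (by
    intro h
    have h1 := natDegree_eq_of_degree_eq_some (n := 0) (by simpa using h)
    rw [P_deg] at h1; norm_num at h1)
  have : CharP (AdjoinRoot P) 2 := charP_of_injective_algebraMap
    (algebraMap (ZMod 2) (AdjoinRoot P)).injective 2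
  set a : AdjoinRoot P := AdjoinRoot.root P with ha
  have h0 : a ^ 9 + a ^ 4 + 1 = 0 := by
    have h := AdjoinRoot.mk_self (f := P)
    unfold P at h
    simp only [map_add, map_pow, AdjoinRoot.mk_X, map_one] at h
    exact h
  have h1 : a ^ 9 = a ^ 4 + 1 := by
    have h2 : a ^ 9 = -(a ^ 4 + 1) := by linear_combination h0
    rw [h2, CharTwo.neg_eq]
  simp only [map_sub, map_pow, AdjoinRoot.mk_X]
  have h2 : (2 : ℕ) ^ 9 = 511 + 1 := by norm_num
  rw [h2, pow_succ, pow_511 h1, one_mul, sub_self]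

theorem exists_root : ∃ α : K, α ^ 9 = α ^ 4 + 1 := by
  have hs : ((X ^ (2 ^ 9) - X : (ZMod 2)[X]).map (algebraMap (ZMod 2) K)).Splits :=
    @IsSplittingField.splits _ (GaloisField 2 9) _ _ _ (X ^ (2 ^ 9) - X : (ZMod 2)[X]) (isSplit 2 9)
  have h0 : (X ^ (2 ^ 9) - X : (ZMod 2)[X]) ≠ 0 :=
    FiniteField.X_pow_card_pow_sub_X_ne_zero _ (by norm_num) (by norm_num)
  have hP : (P.map (algebraMap (ZMod 2) K)).Splits :=
    hs.of_dvd (Polynomial.map_ne_zero h0) (Polynomial.map_dvd _ P_dvd)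
  have hd : (P.map (algebraMap (ZMod 2) K)).degree ≠ 0 := by
    intro h
    have h1 : (P.map (algebraMap (ZMod 2) K)).natDegree = 0 := natDegree_eq_of_degree_eq_some h
    rw [Polynomial.natDegree_map, P_deg] at h1
    norm_num at h1
  obtain ⟨α, hα⟩ := hP.exists_eval_eq_zero hd
  refine ⟨α, ?_⟩
  unfold P at hα
  simp only [Polynomial.map_add, Polynomial.map_pow, map_X, Polynomial.map_one, eval_add,
    eval_pow, eval_X, eval_one] at hα
  have h2 : α ^ 9 = -(α ^ 4 + 1) := by linear_combination hα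
  rw [h2, CharTwo.neg_eq]

theorem ne_zero_of {α : K} (ha : α ^ 9 = α ^ 4 + 1) : α ≠ 0 := by
  rintro rfl
  norm_num at ha

theorem prim {α : K} (ha : α ^ 9 = α ^ 4 + 1) : IsPrimitiveRoot α 511 := by
  rw [IsPrimitiveRoot.iff_orderOf]
  apply orderOf_eq_of_pow_and_pow_div_prime (by norm_num) (pow_511 ha)
  intro p hp hdvd
  have h511 : 511 = 7 * 73 := by norm_num
  rw [h511, Nat.Prime.dvd_mul hp] at hdvd
  have h7 : Nat.Prime 7 := by norm_num
  have h73 : Nat.Prime 73 := by norm_num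
  have e219 : α ^ 219 = α ^ 73 + 1 := by
    rw [pow_pt ha 219, pow_pt ha 73, ← ev_one α, ← ev_xor]
    have : pt 219 = pt 73 ^^^ 1 := by decide +kernel
    rw [this]
  have e67 : α ^ 67 = α ^ 7 + 1 := by
    rw [pow_pt ha 67, pow_pt ha 7, ← ev_one α, ← ev_xor]
    have : pt 67 = pt 7 ^^^ 1 := by decide +kernel
    rw [this]
  rcases hdvd with h | h
  · rw [(Nat.prime_dvd_prime_iff_eq hp h7).1 h]
    norm_num
    intro h1
    rw [h1, CharTwo.add_self_eq_zero] at e219
    exact pow_ne_zero _ (ne_zero_of ha) e219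
  · rw [(Nat.prime_dvd_prime_iff_eq hp h73).1 h]
    norm_num
    intro h1
    rw [h1, CharTwo.add_self_eq_zero] at e67
    exact pow_ne_zero _ (ne_zero_of ha) e67

/-- xor of the nine conjugates -/
def cx (k : ℕ) : ℕ := pt k ^^^ pt (k * 2) ^^^ pt (k * 4) ^^^ pt (k * 8) ^^^ pt (k * 16) ^^^
  pt (k * 32) ^^^ pt (k * 64) ^^^ pt (k * 128) ^^^ pt (k * 256)

theorem cx_eq : ∀ k < 511, cx k = if T.testBit k then 1 else 0 := by decide +kernel

/-- bit to ZMod 2 -/
def bz (b : Bool) : ZMod 2 := if b then 1 else 0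

theorem bz_xor (a b : Bool) : bz (a ^^ b) = bz a + bz b := by
  cases a <;> cases b <;> decide

theorem trace_pow {α : K} (ha : α ^ 9 = α ^ 4 + 1) (k : ℕ) :
    Algebra.trace (ZMod 2) K (α ^ k) = bz (T.testBit (k % 511)) := by
  apply (algebraMap (ZMod 2) K).injective
  have h1 : α ^ k = α ^ (k % 511) := by
    conv_lhs => rw [← Nat.div_add_mod k 511, pow_add, pow_mul, pow_511 ha, one_pow, one_mul]
  rw [h1, FiniteField.algebraMap_trace_eq_sum_pow, GaloisField.finrank 2 (by norm_num)]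
  have hc : Nat.card (ZMod 2) = 2 := by simp
  rw [hc]
  have hlt : k % 511 < 511 := Nat.mod_lt k (by norm_num)
  have h2 : ∑ i ∈ Finset.range 9, (α ^ (k % 511)) ^ (2 ^ i) = ev α (cx (k % 511)) := by
    unfold cx
    simp only [Finset.sum_range_succ, Finset.sum_range_zero, zero_add, ev_xor, ← pow_pt ha,
      ← pow_mul]
    norm_num
  rw [h2, cx_eq _ hlt]
  unfold bz
  split_ifs
  · rw [ev_one, map_one]
  · rw [ev_zero, map_zero]

/-- the bits of the word -/
def bb (j : ℕ) : Bool := ((T.testBit (j % 511) ^^ T.testBit ((90 + 3 * j) % 511)) ^^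
  T.testBit ((325 + 5 * j) % 511)) ^^ T.testBit ((7 * j) % 511)

theorem count : (Finset.univ.filter (fun j : Fin 511 => bb j = true)).card = 196 := by
  decide +kernel

/-- the word -/
noncomputable def dd (α : K) (j : Fin 511) : ZMod 2 :=
  Algebra.trace (ZMod 2) K (α ^ (j : ℕ) + α ^ (90 + 3 * (j : ℕ)) + α ^ (325 + 5 * (j : ℕ)) +
    α ^ (7 * (j : ℕ)))

theorem dd_eq {α : K} (ha : α ^ 9 = α ^ 4 + 1) (j : Fin 511) : dd α j = bz (bb j) := by
  unfold dd bb
  simp only [map_add, trace_pow ha, bz_xor]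

theorem dd_card {α : K} (ha : α ^ 9 = α ^ 4 + 1) :
    (Finset.univ.filter (fun j : Fin 511 => dd α j ≠ 0)).card = 196 := by
  rw [← count]
  refine congrArg Finset.card (Finset.filter_congr fun j _ => ?_)
  rw [dd_eq ha]
  cases bb j <;> simp [bz]

theorem dd_dual {α : K} (c : Fin 511 → ZMod 2)
    (hc : ∀ i ∈ Finset.Icc 1 8, ∑ j : Fin 511, algebraMap (ZMod 2) K (c j) * α ^ (i * (j : ℕ)) = 0) :
    ∑ j : Fin 511, c j * dd α j = 0 := by
  have h1 : ∀ j : Fin 511, c j * dd α j = Algebra.trace (ZMod 2) K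
      (algebraMap (ZMod 2) K (c j) * α ^ (1 * (j : ℕ)) +
        α ^ 90 * (algebraMap (ZMod 2) K (c j) * α ^ (3 * (j : ℕ))) +
        α ^ 325 * (algebraMap (ZMod 2) K (c j) * α ^ (5 * (j : ℕ))) +
        algebraMap (ZMod 2) K (c j) * α ^ (7 * (j : ℕ))) := by
    intro j
    unfold dd
    rw [← smul_eq_mul, ← LinearMap.map_smul, Algebra.smul_def]
    congr 1
    rw [pow_add, pow_add, one_mul]
    ring
  simp_rw [h1]
  rw [← map_sum]
  simp only [Finset.sum_add_distrib, ← Finset.mul_sum]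
  rw [hc 1 (by simp), hc 3 (by simp), hc 5 (by simp), hc 7 (by simp)]
  simp

theorem main : ∃ α : K, IsPrimitiveRoot α 511 ∧ ∃ d : Fin 511 → ZMod 2, d ≠ 0 ∧
    (∀ c : Fin 511 → ZMod 2, (∀ i ∈ Finset.Icc 1 8,
      ∑ j : Fin 511, algebraMap (ZMod 2) K (c j) * α ^ (i * (j : ℕ)) = 0) →
      ∑ j : Fin 511, c j * d j = 0) ∧
    (Finset.univ.filter (fun j => d j ≠ 0)).card = 196 := by
  obtain ⟨α, ha⟩ := exists_root
  refine ⟨α, prim ha, dd α, ?_, fun c hc => dd_dual c hc, dd_card ha⟩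
  intro h
  have := dd_card ha
  rw [h] at this
  simp at this

end Pool.Agent.W13.CU
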